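import Mathlib

set_option autoImplicit false

/-!
# Injective coresolutions and torsion functors over noetherian rings
-/

universe u

namespace R688.PC

variable {R : Type u} [CommRing R]

/-- an injective coresolution, given by short exact sequences `0 → M_n → E_n → M_{n+1}`, where the
surjectivity of the last map is not required -/
structure Dat (R : Type u) [CommRing R] where
  M : ℕ → Type u
  E : ℕ → Type u
  [gM : ∀ n, AddCommGroup (M n)]
  [gE : ∀ n, AddCommGroup (E n)]
  [mM : ∀ n, Module R (M n)]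
  [mE : ∀ n, Module R (E n)]
  i : ∀ n, M n →ₗ[R] E n
  p : ∀ n, E n →ₗ[R] M (n + 1)
  inj : ∀ n, Function.Injective (i n)
  exact : ∀ n, Function.Exact (i n) (p n)
  einj : ∀ n, Module.Injective R (E n)

attribute [instance] Dat.gM Dat.gE Dat.mM Dat.mE

/-- surjectivity from index `c` on -/
def Dat.Surj (D : Dat R) (c : ℕ) : Prop := ∀ n, c ≤ n → Function.Surjective (D.p n)

/-- `x`-power torsion -/
def tor (x : R) (X : Type u) [AddCommGroup X] [Module R X] : Submodule R X where
  carrier := {g | ∃ k : ℕ, x ^ k • g = 0}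
  add_mem' := by
    rintro a b ⟨k, hk⟩ ⟨l, hl⟩
    refine ⟨k + l, ?_⟩
    have h1 : x ^ (k + l) • a = 0 := by rw [add_comm, pow_add, mul_smul, hk, smul_zero]
    have h2 : x ^ (k + l) • b = 0 := by rw [pow_add, mul_smul, hl, smul_zero]
    rw [smul_add, h1, h2, add_zero]
  zero_mem' := ⟨0, smul_zero _⟩
  smul_mem' := by
    rintro c a ⟨k, hk⟩
    exact ⟨k, by rw [smul_comm, hk, smul_zero]⟩

lemma mem_tor {x : R} {X : Type u} [AddCommGroup X] [Module R X] {g : X} :
    g ∈ tor x X ↔ ∃ k : ℕ, x ^ k • g = 0 := Iff.rfl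

/-- division in injective modules -/
lemma div_inj [IsNoetherianRing R] (x : R) (E : Type u) [AddCommGroup E] [Module R E]
    (hE : Module.Injective R E) (e : E) (k : ℕ) :
    ∃ (f : E) (N : ℕ), x ^ (N + k) • f = x ^ N • e := by
  -- annihilators stabilize
  let c : ℕ →o Ideal R :=
    { toFun := fun n => LinearMap.ker (LinearMap.toSpanSingleton R R (x ^ n))
      monotone' := by
        intro a b hab y hy
        rw [LinearMap.mem_ker, LinearMap.toSpanSingleton_apply, smul_eq_mul] at hy ⊢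
        obtain ⟨d, rfl⟩ := Nat.exists_eq_add_of_le hab
        rw [pow_add, ← mul_assoc, hy, zero_mul] }
  obtain ⟨N, hN⟩ := monotone_stabilizes_iff_noetherian.2 (inferInstance : IsNoetherian R R) c
  have hker : LinearMap.ker (LinearMap.toSpanSingleton R R (x ^ (N + k))) ≤
      LinearMap.ker (LinearMap.toSpanSingleton R E (x ^ N • e)) := by
    intro y hy
    have h1 : c (N + k) = c N := (hN (N + k) (Nat.le_add_right _ _)).symm
    have h2 : y ∈ c (N + k) := hy
    rw [h1] at h2
    have h3 : y * x ^ N = 0 := h2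
    rw [LinearMap.mem_ker, LinearMap.toSpanSingleton_apply, smul_smul, h3, zero_smul]
  obtain ⟨h, hh⟩ := hE.out
    ((LinearMap.ker (LinearMap.toSpanSingleton R R (x ^ (N + k)))).liftQ
      (LinearMap.toSpanSingleton R R (x ^ (N + k))) le_rfl)
    (by
      rw [← LinearMap.ker_eq_bot]
      exact Submodule.ker_liftQ_eq_bot _ _ _ le_rfl)
    ((LinearMap.ker (LinearMap.toSpanSingleton R R (x ^ (N + k)))).liftQ
      (LinearMap.toSpanSingleton R E (x ^ N • e)) hker)
  refine ⟨h 1, N, ?_⟩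
  have h1 := hh (Submodule.Quotient.mk 1)
  rw [Submodule.liftQ_apply, Submodule.liftQ_apply, LinearMap.toSpanSingleton_apply,
    LinearMap.toSpanSingleton_apply, one_smul, one_smul] at h1
  rw [← h1, ← map_smul, smul_eq_mul, mul_one]

/-- the torsion part of an injective module is injective -/
theorem tor_injective [IsNoetherianRing R] (x : R) (E : Type u) [AddCommGroup E] [Module R E]
    (hE : Module.Injective R E) : Module.Injective R (tor x E) := by
  apply Module.Baer.injective
  intro 𝔞 φ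
  -- a power of `x` kills the image
  obtain ⟨k, hk⟩ : ∃ k : ℕ, ∀ a : 𝔞, x ^ k • (φ a : E) = 0 := by
    obtain ⟨s, hs⟩ := (inferInstance : Module.Finite R 𝔞)
    have h1 : ∀ a : 𝔞, ∃ k : ℕ, x ^ k • (φ a : E) = 0 := fun a => (φ a).2
    choose κ hκ using h1
    refine ⟨s.sup κ, ?_⟩
    have h2 : (⊤ : Submodule R 𝔞) ≤
        LinearMap.ker ((LinearMap.lsmul R E (x ^ (s.sup κ))) ∘ₗ (tor x E).subtype ∘ₗ φ) := by
      rw [← hs, Submodule.span_le]
      intro a ha
      have h3 : κ a ≤ s.sup κ := Finset.le_sup (f := κ) ha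
      obtain ⟨d, hd⟩ := Nat.exists_eq_add_of_le h3
      change x ^ (s.sup κ) • (φ a : E) = 0
      rw [hd, add_comm, pow_add, mul_smul, hκ, smul_zero]
    intro a
    exact h2 (show a ∈ ⊤ from trivial)
  -- Artin-Rees
  obtain ⟨c, hc⟩ := Ideal.exists_pow_inf_eq_pow_smul (Ideal.span {x}) (𝔞 : Submodule R R)
  have hc' := hc (k + c) (Nat.le_add_left _ _)
  rw [Nat.add_sub_cancel] at hc'
  let J : Ideal R := Ideal.span {x ^ (k + c)}
  have hJ : Submodule.comap 𝔞.subtype J ≤ LinearMap.ker ((tor x E).subtype ∘ₗ φ) := by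
    intro a ha
    have h1 : (a : R) ∈ (Ideal.span {x} ^ (k + c) • (⊤ : Submodule R R)) ⊓ 𝔞 := by
      refine ⟨?_, a.2⟩
      rw [smul_eq_mul, Ideal.mul_top, Ideal.span_singleton_pow]
      exact ha
    rw [hc'] at h1
    have h2 : (Ideal.span {x} ^ k • (Ideal.span {x} ^ c • (⊤ : Submodule R R) ⊓ 𝔞)) ≤
        Submodule.map 𝔞.subtype (Submodule.map (LinearMap.lsmul R 𝔞 (x ^ k)) ⊤) := by
      rw [Ideal.span_singleton_pow, Submodule.smul_le]
      intro r hr n hn
      obtain ⟨t, rfl⟩ := Ideal.mem_span_singleton.1 hr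
      refine ⟨x ^ k • (t • (⟨n, hn.2⟩ : 𝔞)), ⟨t • ⟨n, hn.2⟩, trivial, rfl⟩, ?_⟩
      simp [mul_assoc]
    obtain ⟨b, ⟨b', _, hb'⟩, hb⟩ := h2 h1
    have h3 : a = x ^ k • b' := by
      apply Subtype.ext
      rw [← hb, ← hb']
      rfl
    rw [LinearMap.mem_ker, LinearMap.comp_apply, h3, map_smul, map_smul]
    exact hk b'
  obtain ⟨h, hh⟩ := hE.out (Submodule.mapQ (Submodule.comap 𝔞.subtype J) J 𝔞.subtype le_rfl)
    (by
      rw [← LinearMap.ker_eq_bot, LinearMap.ker_eq_bot']
      intro y hy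
      induction y using Submodule.Quotient.induction_on with
      | H y =>
        rw [Submodule.mapQ_apply, Submodule.Quotient.mk_eq_zero] at hy
        rw [Submodule.Quotient.mk_eq_zero]
        exact hy)
    ((Submodule.comap 𝔞.subtype J).liftQ ((tor x E).subtype ∘ₗ φ) hJ)
  refine ⟨LinearMap.toSpanSingleton R (tor x E) ⟨h (Submodule.Quotient.mk 1), k + c, ?_⟩, ?_⟩
  · rw [← map_smul, ← Submodule.Quotient.mk_smul]
    have : (Submodule.Quotient.mk (x ^ (k + c) • (1 : R)) : R ⧸ J) = 0 := by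
      rw [Submodule.Quotient.mk_eq_zero, smul_eq_mul, mul_one]
      exact Ideal.mem_span_singleton_self _
    rw [this, map_zero]
  · intro a ha
    apply Subtype.ext
    rw [LinearMap.toSpanSingleton_apply]
    change a • h (Submodule.Quotient.mk 1) = _
    rw [← map_smul, ← Submodule.Quotient.mk_smul, smul_eq_mul, mul_one]
    have h1 := hh (Submodule.Quotient.mk ⟨a, ha⟩)
    rw [Submodule.mapQ_apply, Submodule.liftQ_apply] at h1
    exact h1

/-- restriction to torsion -/
noncomputable def torMap (x : R) {X Y : Type u} [AddCommGroup X] [Module R X] [AddCommGroup Y]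
    [Module R Y] (f : X →ₗ[R] Y) : tor x X →ₗ[R] tor x Y :=
  LinearMap.restrict f (by
    rintro g ⟨k, hk⟩
    exact ⟨k, by rw [← map_smul, hk, map_zero]⟩)

/-- the torsion data -/
noncomputable def Dat.tors [IsNoetherianRing R] (D : Dat R) (x : R) : Dat R where
  M n := tor x (D.M n)
  E n := tor x (D.E n)
  i n := torMap x (D.i n)
  p n := torMap x (D.p n)
  inj n := fun a b h => Subtype.ext (D.inj n (congrArg Subtype.val h))
  exact n := by
    intro y
    constructor
    · intro hy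
      have h1 : D.p n y.1 = 0 := congrArg Subtype.val hy
      obtain ⟨m, hm⟩ := (D.exact n y.1).1 h1
      obtain ⟨k, hk⟩ := y.2
      refine ⟨⟨m, k, ?_⟩, Subtype.ext hm⟩
      apply D.inj n
      rw [map_smul, hm, hk, map_zero]
    · rintro ⟨m, rfl⟩
      exact Subtype.ext (D.exact n |>.apply_apply_eq_zero m.1)
  einj n := tor_injective x _ (D.einj n)

lemma Dat.tors_surj [IsNoetherianRing R] (D : Dat R) (x : R) (c : ℕ) (h : D.Surj c) :
    (D.tors x).Surj (c + 1) := by
  rintro n hn ⟨z, k, hk⟩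
  obtain ⟨n, rfl⟩ : ∃ n', n = n' + 1 := ⟨n - 1, by omega⟩
  obtain ⟨g, rfl⟩ := h (n + 1) (by omega) z
  obtain ⟨m, hm⟩ := (D.exact (n + 1) (x ^ k • g)).1 (by rw [map_smul, hk])
  obtain ⟨h₀, rfl⟩ := h n (by omega) m
  obtain ⟨f, N, hf⟩ := div_inj x (D.E n) (D.einj n) h₀ k
  refine ⟨⟨g - D.i (n + 1) (D.p n f), N + k, ?_⟩, ?_⟩
  · have h1 : x ^ (N + k) • g = x ^ N • (x ^ k • g) := by rw [pow_add, mul_smul]
    have h2 : x ^ (N + k) • D.i (n + 1) (D.p n f) = D.i (n + 1) (D.p n (x ^ (N + k) • f)) := by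
      rw [map_smul, map_smul]
    rw [smul_sub, h1, h2, hf, ← hm, map_smul, map_smul, sub_self]
  · apply Subtype.ext
    change D.p (n + 1) (g - D.i (n + 1) (D.p n f)) = D.p (n + 1) g
    rw [map_sub, (D.exact (n + 1)).apply_apply_eq_zero, sub_zero]

end R688.PC
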