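import Pool.Agent.R688.PC.Tor

set_option autoImplicit false

/-!
# `Ext` and injective coresolutions
-/

open CategoryTheory Abelian

universe u

namespace R688.PC

variable {R : Type u} [CommRing R]

section ses

variable {X Y Z K : Type u} [AddCommGroup X] [Module R X] [AddCommGroup Y] [Module R Y]
  [AddCommGroup Z] [Module R Z] [AddCommGroup K] [Module R K]
  {f : X →ₗ[R] Y} {g : Y →ₗ[R] Z}

/-- short complex of a pair of composable maps -/
noncomputable abbrev scx (f : X →ₗ[R] Y) (g : Y →ₗ[R] Z) (hfg : Function.Exact f g) :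
    ShortComplex (ModuleCat.{u} R) :=
  ShortComplex.mk (ModuleCat.ofHom f) (ModuleCat.ofHom g) (by
    ext x
    exact hfg.apply_apply_eq_zero x)

lemma scx_se (hfg : Function.Exact f g) (hf : Function.Injective f)
    (hg : Function.Surjective g) : (scx f g hfg).ShortExact :=
  ModuleCat.shortComplex_shortExact _ hfg hf hg

lemma ext_up (hfg : Function.Exact f g) (hf : Function.Injective f)
    (hg : Function.Surjective g) (n : ℕ)
    (h1 : Subsingleton (Ext (ModuleCat.of R K) (ModuleCat.of R Y) (n + 1)))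
    (h2 : Subsingleton (Ext (ModuleCat.of R K) (ModuleCat.of R Z) n)) :
    Subsingleton (Ext (ModuleCat.of R K) (ModuleCat.of R X) (n + 1)) := by
  refine subsingleton_of_forall_eq 0 fun x => ?_
  obtain ⟨y, hy⟩ := Ext.covariant_sequence_exact₁ (ModuleCat.of R K) (scx_se hfg hf hg) x
    (h1.elim _ _) (rfl : n + 1 = n + 1)
  have hy0 : y = 0 := h2.elim _ _
  rw [← hy, hy0, Ext.zero_comp]

lemma ext_down (hfg : Function.Exact f g) (hf : Function.Injective f)
    (hg : Function.Surjective g) (n : ℕ)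
    (h1 : Subsingleton (Ext (ModuleCat.of R K) (ModuleCat.of R Y) n))
    (h2 : Subsingleton (Ext (ModuleCat.of R K) (ModuleCat.of R X) (n + 1))) :
    Subsingleton (Ext (ModuleCat.of R K) (ModuleCat.of R Z) n) := by
  refine subsingleton_of_forall_eq 0 fun x => ?_
  obtain ⟨y, hy⟩ := Ext.covariant_sequence_exact₃ (ModuleCat.of R K) (scx_se hfg hf hg) x
    (rfl : n + 1 = n + 1) (h2.elim _ _)
  have hy0 : y = 0 := h1.elim _ _
  rw [← hy, hy0, Ext.zero_comp]

lemma ext_one_iff (hfg : Function.Exact f g) (hf : Function.Injective f)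
    (hg : Function.Surjective g)
    (h1 : Subsingleton (Ext (ModuleCat.of R K) (ModuleCat.of R Y) 1)) :
    Subsingleton (Ext (ModuleCat.of R K) (ModuleCat.of R X) 1) ↔
      ∀ φ : K →ₗ[R] Z, ∃ ψ : K →ₗ[R] Y, g ∘ₗ ψ = φ := by
  constructor
  · intro h φ
    obtain ⟨y, hy⟩ := Ext.covariant_sequence_exact₃ (ModuleCat.of R K) (scx_se hfg hf hg)
      (Ext.mk₀ (ModuleCat.ofHom φ)) (rfl : 0 + 1 = 0 + 1) (h.elim _ _)
    obtain ⟨ψ, rfl⟩ := (Ext.mk₀_bijective _ _).2 y
    rw [Ext.mk₀_comp_mk₀] at hy
    have := (Ext.mk₀_bijective _ _).1 hy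
    exact ⟨ψ.hom, congrArg ModuleCat.Hom.hom this⟩
  · intro h
    refine subsingleton_of_forall_eq 0 fun x => ?_
    obtain ⟨y, hy⟩ := Ext.covariant_sequence_exact₁ (ModuleCat.of R K) (scx_se hfg hf hg) x
      (h1.elim _ _) (rfl : 0 + 1 = 0 + 1)
    obtain ⟨φ, rfl⟩ := (Ext.mk₀_bijective _ _).2 y
    obtain ⟨ψ, hψ⟩ := h φ.hom
    have h2 : φ = ModuleCat.ofHom ψ ≫ (scx f g hfg).g := by
      ext x
      exact (LinearMap.congr_fun hψ x).symm
    rw [← hy, h2, ← Ext.mk₀_comp_mk₀]
    rw [Ext.comp_assoc_of_second_deg_zero]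
    rw [ShortComplex.ShortExact.comp_extClass, Ext.comp_zero]

end ses

lemma ext_inj (K E : Type u) [AddCommGroup K] [Module R K] [AddCommGroup E] [Module R E]
    (hE : Module.Injective R E) (n : ℕ) :
    Subsingleton (Ext (ModuleCat.of R K) (ModuleCat.of R E) (n + 1)) := by
  have : Injective (ModuleCat.of R E) := Module.injective_object_of_injective_module R E
  exact Ext.subsingleton_of_injective _ _ _

/-- cosyzygies -/
noncomputable def cosyz (A : ModuleCat.{u} R) : ℕ → ModuleCat.{u} R
  | 0 => A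
  | n + 1 => ModuleCat.of R ((Injective.under (cosyz A n) : ModuleCat.{u} R) ⧸
      LinearMap.range (Injective.ι (cosyz A n)).hom)

lemma under_inj (X : ModuleCat.{u} R) :
    Module.Injective R (Injective.under X : ModuleCat.{u} R) := by
  have h : Injective (Injective.under X) := inferInstance
  exact @Module.injective_module_of_injective_object R (Injective.under X : ModuleCat.{u} R) _ _ _ h

/-- an injective coresolution -/
noncomputable def res (A : ModuleCat.{u} R) : Dat R where
  M n := cosyz A n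
  E n := (Injective.under (cosyz A n) : ModuleCat.{u} R)
  i n := (Injective.ι (cosyz A n)).hom
  p n := (LinearMap.range (Injective.ι (cosyz A n)).hom).mkQ
  inj n := by
    have : Mono (Injective.ι (cosyz A n)) := inferInstance
    exact (ModuleCat.mono_iff_injective _).1 this
  exact n := by
    intro y
    exact (Submodule.Quotient.mk_eq_zero _)
  einj n := under_inj (cosyz A n)

lemma res_surj (A : ModuleCat.{u} R) : (res A).Surj 0 := fun _ _ => Submodule.mkQ_surjective _

lemma ext_iff_ext_one (D : Dat R) (hD : D.Surj 0) (K : Type u) [AddCommGroup K] [Module R K]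
    (c : ℕ) : ∀ n : ℕ,
    Subsingleton (Ext (ModuleCat.of R K) (ModuleCat.of R (D.M c)) (n + 1)) ↔
      Subsingleton (Ext (ModuleCat.of R K) (ModuleCat.of R (D.M (c + n))) 1) := by
  intro n
  induction n generalizing c with
  | zero => exact Iff.rfl
  | succ n ih =>
    have h1 := ih (c + 1)
    rw [show c + 1 + n = c + (n + 1) by ring] at h1
    rw [← h1]
    constructor
    · intro h
      exact ext_down (D.exact c) (D.inj c) (hD c (Nat.zero_le _)) (n + 1)
        (ext_inj _ _ (D.einj c) _) h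
    · intro h
      exact ext_up (D.exact c) (D.inj c) (hD c (Nat.zero_le _)) (n + 1)
        (ext_inj _ _ (D.einj c) _) h

lemma lift_iff_SL (D : Dat R) (m : Ideal R) (n : ℕ) :
    (∀ φ : (R ⧸ m) →ₗ[R] D.M (n + 1), ∃ ψ : (R ⧸ m) →ₗ[R] D.E n, D.p n ∘ₗ ψ = φ) ↔
      SL m D n := by
  constructor
  · intro h z hz
    obtain ⟨ψ, hψ⟩ := h (Submodule.liftQ m (LinearMap.toSpanSingleton R _ z)
      (fun a ha => hz a ha))
    refine ⟨ψ (Submodule.Quotient.mk 1), ?_, ?_⟩
    · have h1 := LinearMap.congr_fun hψ (Submodule.Quotient.mk 1)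
      rw [LinearMap.comp_apply, Submodule.liftQ_apply, LinearMap.toSpanSingleton_apply,
        one_smul] at h1
      exact h1
    · intro a ha
      rw [← map_smul, ← Submodule.Quotient.mk_smul, smul_eq_mul, mul_one]
      rw [(Submodule.Quotient.mk_eq_zero m).2 ha, map_zero]
  · intro h φ
    obtain ⟨g, hg, hg'⟩ := h (φ (Submodule.Quotient.mk 1)) (by
      intro a ha
      rw [← map_smul, ← Submodule.Quotient.mk_smul, smul_eq_mul, mul_one]
      rw [(Submodule.Quotient.mk_eq_zero m).2 ha, map_zero])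
    refine ⟨Submodule.liftQ m (LinearMap.toSpanSingleton R _ g) (fun a ha => hg' a ha), ?_⟩
    apply LinearMap.ext
    intro x
    induction x using Submodule.Quotient.induction_on with
    | H x =>
      rw [LinearMap.comp_apply, Submodule.liftQ_apply, LinearMap.toSpanSingleton_apply,
        map_smul, hg, ← map_smul, ← Submodule.Quotient.mk_smul, smul_eq_mul, mul_one]

/-- **Propagation**: the vanishing of one Bass number beyond the number of parameters forces the
vanishing of all later ones, for arbitrary modules -/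
theorem bass_up [IsNoetherianRing R] (m : Ideal R) [m.IsMaximal] (l : List R)
    (hl : ∀ x ∈ l, x ∈ m) (hm : m ≤ (Ideal.span {x | x ∈ l}).radical)
    (A : Type u) [AddCommGroup A] [Module R A] (i : ℕ) (hi : l.length < i)
    (h : Subsingleton (Ext (ModuleCat.of R (R ⧸ m)) (ModuleCat.of R A) i)) (j : ℕ)
    (hj : i ≤ j) : Subsingleton (Ext (ModuleCat.of R (R ⧸ m)) (ModuleCat.of R A) j) := by
  obtain ⟨n, rfl⟩ : ∃ n, i = n + 1 := ⟨i - 1, by omega⟩
  obtain ⟨n', rfl⟩ : ∃ n', j = n' + 1 := ⟨j - 1, by omega⟩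
  have hD := res_surj (ModuleCat.of R A)
  have key : ∀ t : ℕ, Subsingleton (Ext (ModuleCat.of R (R ⧸ m)) (ModuleCat.of R A) (t + 1)) ↔
      SL m (res (ModuleCat.of R A)) t := by
    intro t
    have h1 := ext_iff_ext_one (res (ModuleCat.of R A)) hD (R ⧸ m) 0 t
    rw [zero_add] at h1
    have h2 := ext_one_iff (K := R ⧸ m) ((res (ModuleCat.of R A)).exact t)
      ((res (ModuleCat.of R A)).inj t) (hD t (Nat.zero_le _))
      (ext_inj _ _ ((res (ModuleCat.of R A)).einj t) 0)
    rw [← lift_iff_SL, ← h2]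
    exact h1
  rw [key] at h ⊢
  exact SL_up _ hD m l hl hm n (by omega) h n' (by omega)

end R688.PC
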