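import Pool.Agent.R688.PC.ExtL

set_option autoImplicit false

/-!
# `Ext` into quotients of perfect rings
-/

open CategoryTheory Abelian

universe u

namespace R688.PC

section colim

variable {R : Type u} [CommRing R] [IsNoetherianRing R] {T : Type u} [AddCommGroup T] [Module R T]

omit [IsNoetherianRing R] in
lemma free_ext' {n : ℕ} (C : Type u) [AddCommGroup C] [Module R C] (m : ℕ) :
    Subsingleton (Ext (ModuleCat.of R (Fin n → R)) (ModuleCat.of R C) (m + 1)) := by
  have : Projective (ModuleCat.of R (Fin n → R)) := by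
    rw [← IsProjective.iff_projective]
    infer_instance
  exact Ext.subsingleton_of_projective _ _ _

/-- `Ext^j(K, -)` of a union, `K` finitely generated over a noetherian ring -/
lemma ext_colim (Xe : ℕ → Submodule R T) (hmono : Monotone Xe) (X : Submodule R T)
    (hX : ∀ t ∈ X, ∃ e, t ∈ Xe e) (hle : ∀ e, Xe e ≤ X) (j : ℕ) :
    ∀ (K : Type u) [AddCommGroup K] [Module R K] [Module.Finite R K]
      (ξ : Ext (ModuleCat.of R K) (ModuleCat.of R X) j),
      ∃ (e : ℕ) (ξ' : Ext (ModuleCat.of R K) (ModuleCat.of R (Xe e)) j),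
        ξ'.comp (Ext.mk₀ (ModuleCat.ofHom (Submodule.inclusion (hle e)))) (add_zero j) = ξ := by
  induction j with
  | zero =>
    intro K _ _ _ ξ
    obtain ⟨φ, rfl⟩ := (Ext.mk₀_bijective _ _).2 ξ
    obtain ⟨s, hs⟩ := (inferInstance : Module.Finite R K)
    have h1 : ∀ k : K, ∃ e, ((φ.hom k : X) : T) ∈ Xe e := fun k => hX _ (φ.hom k).2
    choose κ hκ using h1
    have h2 : (⊤ : Submodule R K) ≤ Submodule.comap (X.subtype ∘ₗ φ.hom) (Xe (s.sup κ)) := by
      rw [← hs, Submodule.span_le]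
      intro a ha
      exact hmono (Finset.le_sup (f := κ) ha) (hκ a)
    refine ⟨s.sup κ, Ext.mk₀ (ModuleCat.ofHom (LinearMap.codRestrict (Xe (s.sup κ))
      (X.subtype ∘ₗ φ.hom) (fun c => h2 trivial))), ?_⟩
    rw [Ext.mk₀_comp_mk₀]
    congr 1
  | succ j ih =>
    intro K _ _ _ ξ
    obtain ⟨n, π, hπ⟩ := Module.Finite.exists_fin' R K
    have hS := scx_se (LinearMap.exact_subtype_ker_map π) (LinearMap.ker π).subtype_injective hπ
    obtain ⟨η, hη⟩ := Ext.contravariant_sequence_exact₃ hS (ModuleCat.of R X) ξ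
      ((free_ext' (R := R) (n := n) X j).elim _ _) (add_comm 1 j)
    obtain ⟨e, η', hη'⟩ := ih (LinearMap.ker π) η
    refine ⟨e, hS.extClass.comp η' (add_comm 1 j), ?_⟩
    rw [Ext.comp_assoc_of_third_deg_zero, hη', hη]

lemma ext_colim_zero (Xe : ℕ → Submodule R T) (hmono : Monotone Xe) (X : Submodule R T)
    (hX : ∀ t ∈ X, ∃ e, t ∈ Xe e) (hle : ∀ e, Xe e ≤ X) (j : ℕ)
    (K : Type u) [AddCommGroup K] [Module R K] [Module.Finite R K]
    (T' : Type u) [AddCommGroup T'] [Module R T']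
    (hT : Subsingleton (Ext (ModuleCat.of R K) (ModuleCat.of R T') j))
    (hfac : ∀ e, ∃ (a : Xe e →ₗ[R] T') (b : T' →ₗ[R] X),
      b ∘ₗ a = Submodule.inclusion (hle e)) :
    Subsingleton (Ext (ModuleCat.of R K) (ModuleCat.of R X) j) := by
  refine subsingleton_of_forall_eq 0 fun ξ => ?_
  obtain ⟨e, ξ', rfl⟩ := ext_colim Xe hmono X hX hle j K ξ
  obtain ⟨a, b, hab⟩ := hfac e
  have h1 : (ModuleCat.ofHom (Submodule.inclusion (hle e)) :
      ModuleCat.of R (Xe e) ⟶ ModuleCat.of R X) = ModuleCat.ofHom a ≫ ModuleCat.ofHom b := by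
    rw [← ModuleCat.ofHom_comp, hab]
  rw [h1, ← Ext.mk₀_comp_mk₀, ← Ext.comp_assoc_of_third_deg_zero]
  rw [hT.elim (ξ'.comp (Ext.mk₀ (ModuleCat.ofHom a)) (add_zero j)) 0, Ext.zero_comp]

end colim

section perf

variable {R : Type u} [CommRing R]

/-- the iterated `p`-th roots -/
noncomputable def root {A : Type u} [CommRing A] {p : ℕ}
    (h : Function.Bijective (fun a : A => a ^ p)) (x : A) : ℕ → A
  | 0 => x
  | e + 1 => Classical.choose (h.2 (root h x e))

lemma root_pow {A : Type u} [CommRing A] {p : ℕ}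
    (h : Function.Bijective (fun a : A => a ^ p)) (x : A) (e : ℕ) :
    root h x (e + 1) ^ p = root h x e := Classical.choose_spec (h.2 (root h x e))

/-- the ideals generated by the roots -/
noncomputable def Ie {A : Type u} [CommRing A] {p : ℕ}
    (h : Function.Bijective (fun a : A => a ^ p)) (x : A) (e : ℕ) : Ideal A :=
  Ideal.span {root h x e}

lemma Ie_mono {A : Type u} [CommRing A] {p : ℕ} (hp : p ≠ 0)
    (h : Function.Bijective (fun a : A => a ^ p)) (x : A) : Monotone (Ie h x) := by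
  apply monotone_nat_of_le_succ
  intro e
  rw [Ie, Ideal.span_singleton_le_iff_mem, ← root_pow h x e]
  exact Ideal.pow_mem_of_mem _ (Ideal.mem_span_singleton_self _) p (Nat.pos_of_ne_zero hp)

/-- the ideal generated by all roots -/
noncomputable def XI {A : Type u} [CommRing A] {p : ℕ}
    (h : Function.Bijective (fun a : A => a ^ p)) (x : A) : Ideal A := ⨆ e, Ie h x e

lemma mem_XI {A : Type u} [CommRing A] {p : ℕ} (hp : p ≠ 0)
    (h : Function.Bijective (fun a : A => a ^ p)) (x a : A) :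
    a ∈ XI h x ↔ ∃ e, a ∈ Ie h x e :=
  Submodule.mem_iSup_of_chain ⟨Ie h x, Ie_mono hp h x⟩ a

lemma root_uniq {A : Type u} [CommRing A] {p : ℕ} (hp : 2 ≤ p)
    (h : Function.Bijective (fun a : A => a ^ p)) (x : A) (e : ℕ) (c c' : A)
    (hc : c * root h x e = c' * root h x e) :
    c * root h x (e + 1) ^ (p - 1) = c' * root h x (e + 1) ^ (p - 1) := by
  apply h.1
  change (c * root h x (e + 1) ^ (p - 1)) ^ p = (c' * root h x (e + 1) ^ (p - 1)) ^ p
  rw [mul_pow, mul_pow, ← pow_mul, mul_comm (p - 1) p, pow_mul, root_pow]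
  obtain ⟨q, rfl⟩ : ∃ q, p = q + 2 := ⟨p - 2, by omega⟩
  rw [show q + 2 - 1 = q + 1 by omega]
  set w := root h x e
  have h1 : c ^ (q + 2) * w ^ (q + 1) = c * (c * w) ^ (q + 1) := by ring
  have h2 : c' ^ (q + 2) * w ^ (q + 1) = (c' * w) * c' ^ (q + 1) * w ^ q := by ring
  rw [h1, h2, hc, ← hc]
  have h3 : c * (c * w) ^ (q + 1) = (c * w) * c ^ (q + 1) * w ^ q := by ring
  rw [hc]
  have h4 : c * (c' * w) ^ (q + 1) = (c * w) * c' ^ (q + 1) * w ^ q := by ring
  rw [h4, hc]

lemma exists_fac {A : Type u} [CommRing A] [Algebra R A] {p : ℕ} (hp : 2 ≤ p)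
    (h : Function.Bijective (fun a : A => a ^ p)) (x : A) (e : ℕ)
    (hle : (Ie h x e).restrictScalars R ≤ (XI h x).restrictScalars R) :
    ∃ (a : (Ie h x e).restrictScalars R →ₗ[R] A) (b : A →ₗ[R] (XI h x).restrictScalars R),
      b ∘ₗ a = Submodule.inclusion hle := by
  have hc : ∀ t : (Ie h x e).restrictScalars R, ∃ c : A, c * root h x e = t :=
    fun t => Ideal.mem_span_singleton'.1 t.2
  choose c hc using hc
  refine ⟨{ toFun := fun t => c t * root h x (e + 1) ^ (p - 1)
            map_add' := ?_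
            map_smul' := ?_ },
    LinearMap.codRestrict _ (LinearMap.mulRight R (root h x (e + 1))) ?_, ?_⟩
  · intro t t'
    rw [← add_mul]
    apply root_uniq hp
    rw [hc, add_mul, hc, hc]
    rfl
  · intro r t
    rw [RingHom.id_apply, Algebra.smul_def, ← mul_assoc]
    apply root_uniq hp
    rw [hc, mul_assoc, hc, ← Algebra.smul_def]
    rfl
  · intro s
    have h1 : root h x (e + 1) ∈ XI h x :=
      (mem_XI (by omega) h x _).2 ⟨e + 1, Ideal.mem_span_singleton_self _⟩
    exact Ideal.mul_mem_left _ s h1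
  · apply LinearMap.ext
    intro t
    apply Subtype.ext
    change c t * root h x (e + 1) ^ (p - 1) * root h x (e + 1) = t
    rw [mul_assoc, ← pow_succ, show p - 1 + 1 = p by omega, root_pow, hc]

variable [IsNoetherianRing R]

/-- the inductive step -/
lemma quot_ext {A : Type u} [CommRing A] [Algebra R A] {p : ℕ} (hp : 2 ≤ p)
    (h : Function.Bijective (fun a : A => a ^ p)) (x : A) (K : Type u) [AddCommGroup K]
    [Module R K] [Module.Finite R K] (j : ℕ)
    (hj : Subsingleton (Ext (ModuleCat.of R K) (ModuleCat.of R A) j))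
    (hj' : Subsingleton (Ext (ModuleCat.of R K) (ModuleCat.of R A) (j + 1))) :
    Subsingleton (Ext (ModuleCat.of R K) (ModuleCat.of R (A ⧸ XI h x)) j) := by
  have hle : ∀ e, (Ie h x e).restrictScalars R ≤ (XI h x).restrictScalars R := by
    intro e a ha
    exact (mem_XI (by omega) h x a).2 ⟨e, ha⟩
  have h1 : Subsingleton (Ext (ModuleCat.of R K)
      (ModuleCat.of R ((XI h x).restrictScalars R)) (j + 1)) := by
    apply ext_colim_zero (fun e => (Ie h x e).restrictScalars R)
      (fun e e' hee' => Ie_mono (by omega) h x hee') ((XI h x).restrictScalars R)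
      (fun t ht => (mem_XI (by omega) h x t).1 ht) hle (j + 1) K A hj'
    intro e
    exact exists_fac hp h x e (hle e)
  refine ext_down (f := ((XI h x).restrictScalars R).subtype)
    (g := (Ideal.Quotient.mkₐ R (XI h x)).toLinearMap) ?_ ?_ ?_ j hj h1
  · intro a
    constructor
    · intro ha
      exact ⟨⟨a, Ideal.Quotient.eq_zero_iff_mem.1 ha⟩, rfl⟩
    · rintro ⟨b, rfl⟩
      exact Ideal.Quotient.eq_zero_iff_mem.2 b.2
  · exact Subtype.val_injective
  · exact Ideal.Quotient.mk_surjective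

omit [IsNoetherianRing R] in
lemma quot_bij {A : Type u} [CommRing A] {p : ℕ} [Fact p.Prime] [CharP A p]
    (h : Function.Bijective (fun a : A => a ^ p)) (x : A) :
    Function.Bijective (fun a : A ⧸ XI h x => a ^ p) := by
  have hp : p ≠ 0 := (Fact.out : p.Prime).ne_zero
  constructor
  · intro a b hab
    obtain ⟨a, rfl⟩ := Ideal.Quotient.mk_surjective a
    obtain ⟨b, rfl⟩ := Ideal.Quotient.mk_surjective b
    rw [Ideal.Quotient.eq]
    have h1 : (a - b) ^ p ∈ XI h x := by
      rw [sub_pow_char]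
      apply Ideal.Quotient.eq.1
      rw [map_pow, map_pow]
      exact hab
    obtain ⟨e, he⟩ := (mem_XI hp h x _).1 h1
    obtain ⟨c, hc⟩ := Ideal.mem_span_singleton'.1 he
    obtain ⟨c', hc'⟩ := h.2 c
    have h2 : a - b = c' * root h x (e + 1) := by
      apply h.1
      change (a - b) ^ p = (c' * root h x (e + 1)) ^ p
      rw [mul_pow, root_pow, ← hc]
      exact congrArg (· * root h x e) hc'.symm
    rw [h2]
    exact (mem_XI hp h x _).2 ⟨e + 1, Ideal.mul_mem_left _ _ (Ideal.mem_span_singleton_self _)⟩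
  · intro b
    obtain ⟨b, rfl⟩ := Ideal.Quotient.mk_surjective b
    obtain ⟨a, ha⟩ := h.2 b
    refine ⟨Ideal.Quotient.mk _ a, ?_⟩
    change (Ideal.Quotient.mk _ a) ^ p = _
    rw [← map_pow]
    exact congrArg _ ha

omit [IsNoetherianRing R] in
lemma XI_le_ker {A : Type u} [CommRing A] {p : ℕ} [Fact p.Prime]
    (h : Function.Bijective (fun a : A => a ^ p)) (x : A) {Ω : Type u} [Field Ω]
    (ψ : A →+* Ω) (hψ : ψ x = 0) : ∀ a ∈ XI h x, ψ a = 0 := by
  have hp : p ≠ 0 := (Fact.out : p.Prime).ne_zero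
  have h1 : ∀ e, ψ (root h x e) = 0 := by
    intro e
    induction e with
    | zero => exact hψ
    | succ e ih =>
      rw [← root_pow, map_pow] at ih
      exact pow_eq_zero_iff hp |>.1 ih
  intro a ha
  obtain ⟨e, he⟩ := (mem_XI hp h x _).1 ha
  obtain ⟨c, rfl⟩ := Ideal.mem_span_singleton'.1 he
  rw [map_mul, h1, mul_zero]

omit [IsNoetherianRing R] in
/-- the final step -/
lemma ext_retract (m : Ideal R) [m.IsMaximal] (B : Type u) [CommRing B] [Algebra R B]
    [Nontrivial B] (hB : ∀ x ∈ m, algebraMap R B x = 0) (J : ℕ)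
    (h : Subsingleton (Ext (ModuleCat.of R (R ⧸ m)) (ModuleCat.of R B) J)) :
    Subsingleton (Ext (ModuleCat.of R (R ⧸ m)) (ModuleCat.of R (R ⧸ m)) J) := by
  obtain ⟨i, r, hir⟩ : ∃ (i : (R ⧸ m) →ₗ[R] B) (r : B →ₗ[R] (R ⧸ m)), r ∘ₗ i = LinearMap.id := by
    let _ := Ideal.Quotient.field m
    let alg : Algebra (R ⧸ m) B := (Ideal.Quotient.lift m (algebraMap R B) hB).toAlgebra
    have : IsScalarTower R (R ⧸ m) B := IsScalarTower.of_algebraMap_eq (fun x => rfl)
    obtain ⟨r, hr⟩ := LinearMap.exists_leftInverse_of_injective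
      (Algebra.linearMap (R ⧸ m) B) (LinearMap.ker_eq_bot.2 (algebraMap (R ⧸ m) B).injective)
    exact ⟨(Algebra.linearMap (R ⧸ m) B).restrictScalars R, r.restrictScalars R,
      LinearMap.ext fun x => LinearMap.congr_fun hr x⟩
  refine subsingleton_of_forall_eq 0 fun ξ => ?_
  have h1 : (ModuleCat.ofHom i ≫ ModuleCat.ofHom r : ModuleCat.of R (R ⧸ m) ⟶
      ModuleCat.of R (R ⧸ m)) = 𝟙 _ := by
    rw [← ModuleCat.ofHom_comp, hir]
    rfl
  have h2 : ξ.comp (Ext.mk₀ (𝟙 (ModuleCat.of R (R ⧸ m)))) (add_zero J) = ξ := Ext.comp_mk₀_id ξ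
  rw [← h2, ← h1, ← Ext.mk₀_comp_mk₀, ← Ext.comp_assoc_of_third_deg_zero,
    h.elim (ξ.comp (Ext.mk₀ (ModuleCat.ofHom i)) (add_zero J)) 0, Ext.zero_comp]

/-- the induction on generators -/
theorem perf_main (m : Ideal R) [m.IsMaximal] {p : ℕ} [Fact p.Prime] (Ω : Type u) [Field Ω]
    [CharP Ω p] (J : ℕ) (l : List R) :
    ∀ (A : Type u) [CommRing A] [Algebra R A] [CharP A p]
      (_ : Function.Bijective (fun a : A => a ^ p))
      (_ : ∀ j, J ≤ j → Subsingleton (Ext (ModuleCat.of R (R ⧸ m)) (ModuleCat.of R A) j))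
      (ψ : A →+* Ω) (_ : ∀ x ∈ l, ψ (algebraMap R A x) = 0)
      (_ : ∀ x ∈ m, algebraMap R A x ∈ Ideal.span {a | ∃ y ∈ l, a = algebraMap R A y}),
      Subsingleton (Ext (ModuleCat.of R (R ⧸ m)) (ModuleCat.of R (R ⧸ m)) J) := by
  have hp : 2 ≤ p := (Fact.out : p.Prime).two_le
  induction l with
  | nil =>
    intro A _ _ _ h hE ψ hψ hm
    have : Nontrivial A := RingHom.domain_nontrivial ψ
    apply ext_retract m A _ J (hE J le_rfl)
    intro x hx
    have h1 := hm x hx
    have h2 : {a : A | ∃ y ∈ ([] : List R), a = algebraMap R A y} = ∅ := by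
      ext a
      simp
    rw [h2, Ideal.span_empty] at h1
    exact h1
  | cons x l ih =>
    intro A _ _ _ h hE ψ hψ hm
    set X := XI h (algebraMap R A x) with hX
    have hle := XI_le_ker h (algebraMap R A x) ψ (hψ x List.mem_cons_self)
    let ψ' : (A ⧸ X) →+* Ω := Ideal.Quotient.lift X ψ hle
    have : CharP (A ⧸ X) p := by
      apply CharP.quotient' p X
      intro n hn
      have h1 := hle _ hn
      rw [map_natCast, CharP.cast_eq_zero_iff Ω p] at h1
      exact (CharP.cast_eq_zero_iff A p n).2 h1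
    apply ih (A ⧸ X) (quot_bij h (algebraMap R A x)) _ ψ'
    · intro y hy
      exact hψ y (List.mem_cons_of_mem _ hy)
    · intro y hy
      have h1 := hm y hy
      have h2 : Ideal.span {a : A | ∃ z ∈ x :: l, a = algebraMap R A z} ≤
          Ideal.comap (Ideal.Quotient.mk X)
            (Ideal.span {a : A ⧸ X | ∃ z ∈ l, a = algebraMap R (A ⧸ X) z}) := by
        rw [Ideal.span_le]
        rintro _ ⟨z, hz, rfl⟩
        rw [SetLike.mem_coe, Ideal.mem_comap]
        rcases List.mem_cons.1 hz with rfl | hz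
        · have : Ideal.Quotient.mk X (algebraMap R A z) = 0 := by
            rw [Ideal.Quotient.eq_zero_iff_mem]
            exact (mem_XI (by omega) h _ _).2 ⟨0, Ideal.mem_span_singleton_self _⟩
          rw [this]
          exact zero_mem _
        · exact Ideal.subset_span ⟨z, hz, rfl⟩
      exact h2 h1
    · intro j hj
      exact quot_ext hp h (algebraMap R A x) (R ⧸ m) j (hE j hj) (hE (j + 1) (by omega))

end perf

end R688.PC
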