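import Pool.Agent.R688.PC.Perf

set_option autoImplicit false

/-!
# Minimal free resolutions of finite length
-/

open CategoryTheory Abelian IsLocalRing

universe u

namespace R688.PC

variable {R : Type u} [CommRing R] [IsLocalRing R]

/-- a minimal presentation -/
lemma exists_min_pres (C : Type u) [AddCommGroup C] [Module R C] [Module.Finite R C] :
    ∃ (n : ℕ) (φ : (Fin n → R) →ₗ[R] C), Function.Surjective φ ∧
      ∀ x ∈ LinearMap.ker φ, ∀ i, x i ∈ maximalIdeal R := by
  classical
  have hex : ∃ n : ℕ, ∃ φ : (Fin n → R) →ₗ[R] C, Function.Surjective φ :=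
    Module.Finite.exists_fin' R C
  obtain ⟨φ, hφ⟩ := Nat.find_spec hex
  have hmin := fun m (hm : m < Nat.find hex) => Nat.find_min hex hm
  generalize Nat.find hex = n at φ hφ hmin
  refine ⟨n, φ, hφ, ?_⟩
  intro x hx i
  obtain ⟨n, rfl⟩ : ∃ n', n = n' + 1 := ⟨n - 1, by have := i.pos; omega⟩
  by_contra hu
  have hunit : IsUnit (x i) := by
    by_contra h
    exact hu ((IsLocalRing.mem_maximalIdeal _).2 h)
  obtain ⟨u, hu'⟩ := hunit
  apply hmin n (Nat.lt_succ_self n)
  let ι : (Fin n → R) →ₗ[R] (Fin (n + 1) → R) :=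
    { toFun := fun y => Fin.insertNth (α := fun _ => R) i 0 y
      map_add' := by
        intro a b
        ext j
        refine Fin.succAboveCases i ?_ (fun j => ?_) j <;> simp
      map_smul' := by
        intro a b
        ext j
        refine Fin.succAboveCases i ?_ (fun j => ?_) j <;> simp }
  refine ⟨φ ∘ₗ ι, ?_⟩
  intro c
  obtain ⟨z, rfl⟩ := hφ c
  refine ⟨fun j => (z - (z i * (↑u⁻¹ : R)) • x) (i.succAbove j), ?_⟩
  have h1 : ι (fun j => (z - (z i * (↑u⁻¹ : R)) • x) (i.succAbove j))
      = z - (z i * (↑u⁻¹ : R)) • x := by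
    ext j
    refine Fin.succAboveCases i ?_ (fun j => ?_) j
    · simp only [ι, LinearMap.coe_mk, AddHom.coe_mk, Fin.insertNth_apply_same, Pi.sub_apply,
        Pi.smul_apply, smul_eq_mul]
      rw [← hu', mul_assoc, Units.inv_mul, mul_one, sub_self]
    · simp [ι]
  rw [LinearMap.comp_apply, h1, map_sub, map_smul, LinearMap.mem_ker.1 hx, smul_zero, sub_zero]

/-- existence of a minimal free resolution of length `< n` -/
def MR : ℕ → ∀ (M : Type u) [AddCommGroup M] [Module R M], Prop
  | 0, M, _, _ => Subsingleton M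
  | n + 1, M, _, _ => ∃ (r : ℕ) (π : (Fin r → R) →ₗ[R] M), Function.Surjective π ∧
      (∀ x ∈ LinearMap.ker π, ∀ i, x i ∈ maximalIdeal R) ∧ MR n (LinearMap.ker π)

variable [IsNoetherianRing R]

omit [IsNoetherianRing R] in
lemma hom_zero {M : Type u} [AddCommGroup M] [Module R M] [Module.Finite R M]
    (h : ∀ f : M →ₗ[R] (R ⧸ maximalIdeal R), f = 0) : Subsingleton M := by
  obtain ⟨n, φ, hφ, hmin⟩ := exists_min_pres (R := R) M
  rcases n with _ | n
  · exact hφ.subsingleton
  · exfalso
    let g : (Fin (n + 1) → R) →ₗ[R] (R ⧸ maximalIdeal R) :=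
      (Submodule.mkQ (maximalIdeal R)) ∘ₗ LinearMap.proj 0
    have hg : LinearMap.ker φ ≤ LinearMap.ker g := by
      intro x hx
      exact (Submodule.Quotient.mk_eq_zero _).2 (hmin x hx 0)
    let f : M →ₗ[R] (R ⧸ maximalIdeal R) :=
      (Submodule.liftQ _ g hg) ∘ₗ (φ.quotKerEquivOfSurjective hφ).symm.toLinearMap
    have h1 := LinearMap.congr_fun (h f) (φ (Pi.single 0 1))
    have h2 : f (φ (Pi.single 0 1)) = g (Pi.single 0 1) := by
      change (Submodule.liftQ _ g hg) ((φ.quotKerEquivOfSurjective hφ).symm (φ (Pi.single 0 1))) = _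
      have h3 : (φ.quotKerEquivOfSurjective hφ).symm (φ (Pi.single 0 1)) =
          Submodule.Quotient.mk (Pi.single 0 1) := by
        rw [LinearEquiv.symm_apply_eq]
        rfl
      rw [h3, Submodule.liftQ_apply]
    rw [h2] at h1
    have h4 : (Submodule.Quotient.mk ((Pi.single 0 1 : Fin (n + 1) → R) 0) :
        R ⧸ maximalIdeal R) = 0 := h1
    rw [Pi.single_eq_same, Submodule.Quotient.mk_eq_zero] at h4
    exact (Ideal.ne_top_iff_one _).1 (maximalIdeal.isMaximal R).ne_top h4

/-- vanishing of `Ext^J(M, k)` gives a finite minimal resolution -/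
theorem MR_of_ext (J : ℕ) : ∀ (M : Type u) [AddCommGroup M] [Module R M] [Module.Finite R M],
    Subsingleton (Ext (ModuleCat.of R M) (ModuleCat.of R (R ⧸ maximalIdeal R)) J) →
      MR (R := R) J M := by
  induction J with
  | zero =>
    intro M _ _ _ h
    apply hom_zero (R := R)
    intro f
    have h1 : Ext.mk₀ (ModuleCat.ofHom f) = Ext.mk₀ (0 : ModuleCat.of R M ⟶
      ModuleCat.of R (R ⧸ maximalIdeal R)) := h.elim _ _
    exact congrArg ModuleCat.Hom.hom ((Ext.mk₀_bijective _ _).1 h1)
  | succ J ih =>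
    intro M _ _ _ h
    obtain ⟨n, φ, hφ, hmin⟩ := exists_min_pres (R := R) M
    refine ⟨n, φ, hφ, hmin, ih (LinearMap.ker φ) ?_⟩
    have hS := scx_se (LinearMap.exact_subtype_ker_map φ) (LinearMap.ker φ).subtype_injective hφ
    refine subsingleton_of_forall_eq 0 fun ξ => ?_
    obtain ⟨y, hy⟩ := Ext.contravariant_sequence_exact₁ hS
      (ModuleCat.of R (R ⧸ maximalIdeal R)) ξ (add_comm 1 J) (h.elim _ _)
    rcases J with _ | J
    · obtain ⟨g, rfl⟩ := (Ext.mk₀_bijective _ _).2 y
      rw [Ext.mk₀_comp_mk₀] at hy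
      rw [← hy]
      have h1 : (scx (LinearMap.ker φ).subtype φ (LinearMap.exact_subtype_ker_map φ)).f ≫ g
          = 0 := by
        ext x
        change g.hom (x : Fin n → R) = 0
        rw [pi_eq_sum_univ' (x : Fin n → R), map_sum]
        apply Finset.sum_eq_zero
        intro i _
        rw [map_smul]
        obtain ⟨t, ht⟩ := Ideal.Quotient.mk_surjective (g.hom (Pi.single i 1))
        rw [← ht]
        change Ideal.Quotient.mk _ ((x : Fin n → R) i * t) = 0
        rw [Ideal.Quotient.eq_zero_iff_mem]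
        exact Ideal.mul_mem_right _ _ (hmin x.1 x.2 i)
      rw [h1, Ext.mk₀_zero]
    · rw [← hy, (free_ext' (R := R) (n := n) (R ⧸ maximalIdeal R) J).elim y 0, Ext.comp_zero]

omit [IsNoetherianRing R] in
lemma pd_of_MR (n : ℕ) : ∀ (M : Type u) [AddCommGroup M] [Module R M], MR (R := R) n M →
    HasProjectiveDimensionLT (ModuleCat.of R M) n := by
  induction n with
  | zero =>
    intro M _ _ h
    have : Subsingleton M := h
    exact (ModuleCat.isZero_of_subsingleton (ModuleCat.of R M)).hasProjectiveDimensionLT_zero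
  | succ n ih =>
    rintro M _ _ ⟨r, π, hπ, -, h⟩
    have hS := scx_se (LinearMap.exact_subtype_ker_map π) (LinearMap.ker π).subtype_injective hπ
    refine hS.hasProjectiveDimensionLT_X₃ n (ih _ h) ?_
    have : Projective (ModuleCat.of R (Fin r → R)) := by
      rw [← IsProjective.iff_projective]
      infer_instance
    exact hasProjectiveDimensionLT_of_ge _ 1 (n + 1) (by omega)

omit [IsNoetherianRing R] in
/-- in the presence of a socle element, modules with finite minimal resolutions are free -/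
lemma free_of_MR (s : R) (hs : s ≠ 0) (hms : ∀ y ∈ maximalIdeal R, y * s = 0) (n : ℕ) :
    ∀ (M : Type u) [AddCommGroup M] [Module R M], MR (R := R) n M →
      ∃ r : ℕ, Nonempty (M ≃ₗ[R] (Fin r → R)) := by
  induction n with
  | zero =>
    intro M _ _ h
    have : Subsingleton M := h
    exact ⟨0, ⟨⟨0, 0, fun _ => Subsingleton.elim _ _, fun _ => Subsingleton.elim _ _⟩⟩⟩
  | succ n ih =>
    rintro M _ _ ⟨r, π, hπ, hmin, h⟩
    obtain ⟨r', ⟨e⟩⟩ := ih _ h
    rcases r' with _ | r'
    · refine ⟨r, ⟨(LinearEquiv.ofBijective π ⟨?_, hπ⟩).symm⟩⟩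
      rw [← LinearMap.ker_eq_bot]
      rw [Submodule.eq_bot_iff]
      intro x hx
      have h1 : (⟨x, hx⟩ : LinearMap.ker π) = 0 := by
        apply e.injective
        exact Subsingleton.elim _ _
      exact congrArg Subtype.val h1
    · exfalso
      apply hs
      have h1 : s • e.symm (Pi.single 0 1) = 0 := by
        apply Subtype.ext
        funext i
        change s * (e.symm (Pi.single 0 1) : Fin r → R) i = 0
        rw [mul_comm]
        exact hms _ (hmin _ (e.symm (Pi.single 0 1)).2 i)
      have h2 : s • (Pi.single 0 1 : Fin (r' + 1) → R) = 0 := by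
        rw [← map_smul] at h1
        exact e.symm.injective (by rw [h1, map_zero])
      have h3 := congrFun h2 0
      simpa using h3

end R688.PC
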