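import Pool.Agent.R688.PC.Serre1

set_option autoImplicit false

/-!
# Serre's theorem: `Ext^J(k, k) = 0` implies regularity
-/

open CategoryTheory Abelian IsLocalRing

universe u

namespace R688.PC

/-- change of rings -/
lemma pd_quot {R : Type u} [CommRing R] [IsLocalRing R] {x : R} (hx : ∀ y : R, x * y = 0 → y = 0)
    (n : ℕ) :
    ∀ (M : Type u) [AddCommGroup M] [Module R M] (_ : MR (R := R) n M)
      (_ : ∀ y : M, x • y = 0 → y = 0)
      (N : Type u) [AddCommGroup N] [Module R N] [Module (R ⧸ Ideal.span {x}) N]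
      [IsScalarTower R (R ⧸ Ideal.span {x}) N] (ρ : M →ₗ[R] N) (_ : Function.Surjective ρ)
      (_ : ∀ y, ρ y = 0 → ∃ z, y = x • z),
      HasProjectiveDimensionLT (ModuleCat.of (R ⧸ Ideal.span {x}) N) n := by
  induction n with
  | zero =>
    intro M _ _ h _ N _ _ _ _ ρ hρ _
    have : Subsingleton M := h
    have : Subsingleton N := hρ.subsingleton
    exact (ModuleCat.isZero_of_subsingleton (ModuleCat.of (R ⧸ Ideal.span {x}) N)).hasProjectiveDimensionLT_zero
  | succ n ih =>
    rintro M _ _ ⟨r, π, hπ, -, hK⟩ hreg N _ _ _ _ ρ hρ hker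
    let R' := R ⧸ Ideal.span {x}
    let π' : (Fin r → R') →ₗ[R'] N := Fintype.linearCombination R' (fun i => ρ (π (Pi.single i 1)))
    have key : ∀ f : Fin r → R, π' (fun i => Ideal.Quotient.mk (Ideal.span {x}) (f i)) =
        ρ (π f) := by
      intro f
      rw [Fintype.linearCombination_apply]
      conv_rhs => rw [pi_eq_sum_univ' f, map_sum, map_sum]
      refine Finset.sum_congr rfl fun i _ => ?_
      rw [map_smul, map_smul]
      exact algebraMap_smul R' (f i) (ρ (π (Pi.single i 1)))
    have hπ' : Function.Surjective π' := by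
      intro z
      obtain ⟨y, rfl⟩ := hρ z
      obtain ⟨f, rfl⟩ := hπ y
      exact ⟨_, key f⟩
    have hS := scx_se (LinearMap.exact_subtype_ker_map π') (LinearMap.ker π').subtype_injective hπ'
    let ρ' : LinearMap.ker π →ₗ[R] LinearMap.ker π' :=
      { toFun := fun k => ⟨fun i => Ideal.Quotient.mk (Ideal.span {x}) ((k : Fin r → R) i), by
          rw [LinearMap.mem_ker, key, LinearMap.mem_ker.1 k.2, map_zero]⟩
        map_add' := by
          intro a b
          rfl
        map_smul' := by
          intro a b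
          rfl }
    refine hS.hasProjectiveDimensionLT_X₃ n (ih (LinearMap.ker π) hK ?_ (LinearMap.ker π') ρ' ?_ ?_) ?_
    · intro y hy
      apply Subtype.ext
      funext i
      apply hx
      exact congrFun (congrArg Subtype.val hy) i
    · rintro ⟨f', hf'⟩
      choose f hf using fun i => Ideal.Quotient.mk_surjective (f' i)
      have h1 : ρ (π f) = 0 := by
        rw [← key]
        simp only [hf]
        exact hf'
      obtain ⟨z, hz⟩ := hker _ h1
      obtain ⟨g, rfl⟩ := hπ z
      refine ⟨⟨f - x • g, ?_⟩, ?_⟩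
      · rw [LinearMap.mem_ker, map_sub, map_smul, hz, sub_self]
      · apply Subtype.ext
        funext i
        change Ideal.Quotient.mk (Ideal.span {x}) (f i - x * g i) = f' i
        rw [map_sub, hf, Ideal.Quotient.eq_zero_iff_mem.2
          (Ideal.mul_mem_right _ _ (Ideal.mem_span_singleton_self x)), sub_zero]
    · rintro ⟨k, hk⟩ hk'
      have h1 : ∀ i, ∃ t, x * t = k i := by
        intro i
        have h2 : Ideal.Quotient.mk (Ideal.span {x}) (k i) = 0 :=
          congrFun (congrArg Subtype.val hk') i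
        obtain ⟨t, ht⟩ := Ideal.mem_span_singleton'.1 (Ideal.Quotient.eq_zero_iff_mem.1 h2)
        exact ⟨t, by rw [mul_comm]; exact ht⟩
      choose t ht using h1
      have h2 : k = x • t := by
        funext i
        exact (ht i).symm
      refine ⟨⟨t, ?_⟩, Subtype.ext h2⟩
      rw [LinearMap.mem_ker]
      apply hreg
      rw [← map_smul, ← h2]
      exact hk
    · have : Projective (ModuleCat.of R' (Fin r → R')) := by
        rw [← IsProjective.iff_projective]
        infer_instance
      exact hasProjectiveDimensionLT_of_ge _ 1 (n + 1) (by omega)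

section retract

variable {R : Type u} [CommRing R] [IsLocalRing R]

lemma exists_functional {x : R} (hx : x ∈ maximalIdeal R) (hx2 : x ∉ maximalIdeal R ^ 2) :
    ∃ f : maximalIdeal R →ₗ[R] (R ⧸ maximalIdeal R), f ⟨x, hx⟩ = Submodule.Quotient.mk 1 := by
  let v : CotangentSpace R := (maximalIdeal R).toCotangent ⟨x, hx⟩
  have hv : v ≠ 0 := by
    intro h
    exact hx2 ((Ideal.toCotangent_eq_zero _ _).1 h)
  obtain ⟨f, hf⟩ := LinearMap.exists_leftInverse_of_injective
    (LinearMap.toSpanSingleton (ResidueField R) (CotangentSpace R) v)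
    (LinearMap.ker_toSpanSingleton (ResidueField R) hv)
  refine ⟨(f.restrictScalars R) ∘ₗ (maximalIdeal R).toCotangent, ?_⟩
  have h1 := LinearMap.congr_fun hf 1
  rw [LinearMap.comp_apply, LinearMap.toSpanSingleton_apply, one_smul] at h1
  exact h1

/-- the model of `m/xm` -/
abbrev NN (x : R) : Type u :=
  maximalIdeal R ⧸ (Ideal.span {x} • (⊤ : Submodule R (maximalIdeal R)))

lemma NN_zero (x : R) (y : maximalIdeal R) :
    (Submodule.Quotient.mk y : NN x) = 0 ↔ ∃ z, y = x • z := by
  rw [Submodule.Quotient.mk_eq_zero, Submodule.ideal_span_singleton_smul,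
    Submodule.mem_smul_pointwise_iff_exists]
  constructor
  · rintro ⟨z, -, rfl⟩
    exact ⟨z, rfl⟩
  · rintro ⟨z, rfl⟩
    exact ⟨z, trivial, rfl⟩

lemma exists_retract {x : R} (hx : x ∈ maximalIdeal R) (hx2 : x ∉ maximalIdeal R ^ 2)
    [IsLocalRing (R ⧸ Ideal.span {x})] :
    ∃ (i : ((R ⧸ Ideal.span {x}) ⧸ maximalIdeal (R ⧸ Ideal.span {x})) →ₗ[R ⧸ Ideal.span {x}] NN x)
      (r : NN x →ₗ[R ⧸ Ideal.span {x}]
        ((R ⧸ Ideal.span {x}) ⧸ maximalIdeal (R ⧸ Ideal.span {x}))),
      r ∘ₗ i = LinearMap.id := by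
  let R' := R ⧸ Ideal.span {x}
  let k' := R' ⧸ maximalIdeal R'
  have hloc : IsLocalHom (Ideal.Quotient.mk (Ideal.span {x})) :=
    IsLocalHom.of_surjective _ Ideal.Quotient.mk_surjective
  have hmem : ∀ a ∈ maximalIdeal R, Ideal.Quotient.mk (Ideal.span {x}) a ∈ maximalIdeal R' := by
    intro a ha
    rw [mem_maximalIdeal] at ha ⊢
    intro h
    exact ha (hloc.map_nonunit a h)
  have hmem' : ∀ b ∈ maximalIdeal R', ∃ a ∈ maximalIdeal R,
      Ideal.Quotient.mk (Ideal.span {x}) a = b := by
    intro b hb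
    obtain ⟨a, rfl⟩ := Ideal.Quotient.mk_surjective b
    refine ⟨a, ?_, rfl⟩
    rw [mem_maximalIdeal] at hb ⊢
    intro h
    exact hb (h.map (Ideal.Quotient.mk (Ideal.span {x})))
  let i : k' →ₗ[R'] NN x := Submodule.liftQ (maximalIdeal R')
    (LinearMap.toSpanSingleton R' (NN x) (Submodule.Quotient.mk ⟨x, hx⟩)) (by
      intro b hb
      obtain ⟨a, ha, rfl⟩ := hmem' b hb
      rw [LinearMap.mem_ker, LinearMap.toSpanSingleton_apply]
      have h1 : (Ideal.Quotient.mk (Ideal.span {x}) a) • (Submodule.Quotient.mk ⟨x, hx⟩ : NN x) =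
          Submodule.Quotient.mk (a • (⟨x, hx⟩ : maximalIdeal R)) := rfl
      rw [h1, NN_zero]
      exact ⟨⟨a, ha⟩, Subtype.ext (mul_comm a x)⟩)
  obtain ⟨f, hf⟩ := exists_functional hx hx2
  let κ : (R ⧸ maximalIdeal R) →ₗ[R] k' := Submodule.liftQ (maximalIdeal R)
    (LinearMap.toSpanSingleton R k' (Submodule.Quotient.mk 1)) (by
      intro a ha
      rw [LinearMap.mem_ker, LinearMap.toSpanSingleton_apply]
      have h1 : a • (Submodule.Quotient.mk (1 : R') : k') =
          Submodule.Quotient.mk (Ideal.Quotient.mk (Ideal.span {x}) a * 1) := rfl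
      rw [h1, mul_one, Submodule.Quotient.mk_eq_zero]
      exact hmem a ha)
  have hκ : κ (Submodule.Quotient.mk 1) = Submodule.Quotient.mk (1 : R') := by
    change Submodule.liftQ _ _ _ _ = _
    rw [Submodule.liftQ_apply, LinearMap.toSpanSingleton_apply, one_smul]
  let r₀ : NN x →ₗ[R] k' := Submodule.liftQ _ (κ ∘ₗ f) (by
    intro y hy
    rw [← Submodule.Quotient.mk_eq_zero, NN_zero] at hy
    obtain ⟨z, rfl⟩ := hy
    rw [LinearMap.mem_ker, map_smul]
    obtain ⟨w, hw⟩ := Submodule.Quotient.mk_surjective _ ((κ ∘ₗ f) z)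
    rw [← hw]
    have h1 : x • (Submodule.Quotient.mk w : k') =
        Submodule.Quotient.mk (Ideal.Quotient.mk (Ideal.span {x}) x * w) := rfl
    rw [h1, Ideal.Quotient.eq_zero_iff_mem.2 (Ideal.mem_span_singleton_self x), zero_mul]
    rfl)
  let r : NN x →ₗ[R'] k' := LinearMap.extendScalarsOfSurjective
    (S := R') (R := R) Ideal.Quotient.mk_surjective r₀
  refine ⟨i, r, ?_⟩
  apply LinearMap.ext
  intro w
  induction w using Submodule.Quotient.induction_on with
  | H w =>
    have h1 : (Submodule.Quotient.mk w : k') = w • Submodule.Quotient.mk (1 : R') := by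
      rw [← Submodule.Quotient.mk_smul, smul_eq_mul, mul_one]
    rw [LinearMap.id_apply, h1, map_smul, LinearMap.comp_apply]
    congr 1
    have h2 : i (Submodule.Quotient.mk (1 : R')) = Submodule.Quotient.mk ⟨x, hx⟩ := by
      change Submodule.liftQ _ _ _ _ = _
      rw [Submodule.liftQ_apply, LinearMap.toSpanSingleton_apply, one_smul]
    rw [h2]
    change r₀ (Submodule.Quotient.mk ⟨x, hx⟩) = _
    change Submodule.liftQ _ _ _ _ = _
    rw [Submodule.liftQ_apply, LinearMap.comp_apply, hf, hκ]

end retract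

section avoid

variable {R : Type u} [CommRing R] [IsLocalRing R] [IsNoetherianRing R]

lemma exists_param (hm : maximalIdeal R ≠ ⊥)
    (hs : ∀ s : R, (∀ y ∈ maximalIdeal R, y * s = 0) → s = 0) :
    ∃ x ∈ maximalIdeal R, x ∉ maximalIdeal R ^ 2 ∧ ∀ y : R, x * y = 0 → y = 0 := by
  classical
  by_contra hcon
  push Not at hcon
  have hfin : (associatedPrimes R R).Finite := associatedPrimes.finite R R
  let s : Finset (Ideal R) := insert (maximalIdeal R ^ 2) hfin.toFinset
  have hsub : (maximalIdeal R : Set R) ⊆ ⋃ i ∈ (↑s : Set (Ideal R)), (i : Set R) := by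
    intro x hx
    by_cases hx2 : x ∈ maximalIdeal R ^ 2
    · refine Set.mem_iUnion₂.2 ⟨maximalIdeal R ^ 2, ?_, hx2⟩
      simp [s]
    · obtain ⟨y, hxy, hy⟩ := hcon x hx hx2
      have h1 : x ∈ ⋃ p ∈ associatedPrimes R R, (p : Set R) := by
        rw [biUnion_associatedPrimes_eq_zero_divisors]
        exact ⟨y, hy, hxy⟩
      obtain ⟨P, hP, hxP⟩ := Set.mem_iUnion₂.1 h1
      refine Set.mem_iUnion₂.2 ⟨P, ?_, hxP⟩
      simp only [s, Finset.coe_insert, Set.mem_insert_iff, Finset.mem_coe, Set.Finite.mem_toFinset]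
      exact Or.inr hP
  rw [Ideal.subset_union_prime (f := fun i : Ideal R => i) (maximalIdeal R ^ 2)
    (maximalIdeal R ^ 2)] at hsub
  · obtain ⟨P, hP, hle⟩ := hsub
    rcases Finset.mem_insert.1 hP with rfl | hP
    · apply hm
      have h1 : maximalIdeal R ≤ maximalIdeal R • maximalIdeal R := by
        rw [smul_eq_mul, ← pow_two]
        exact hle
      exact Submodule.eq_bot_of_le_smul_of_le_jacobson_bot _ _
        ((inferInstance : IsNoetherian R R).noetherian _) h1 (IsLocalRing.maximalIdeal_le_jacobson _)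
    · rw [Set.Finite.mem_toFinset] at hP
      have h1 : P = maximalIdeal R :=
        ((maximalIdeal.isMaximal R).eq_of_le hP.isPrime.ne_top hle).symm
      subst h1
      obtain ⟨-, y, hy⟩ := isAssociatedPrime_iff.1 hP
      have hmemc : ∀ z : R, z ∈ (⊥ : Submodule R R).colon {y} ↔ z * y = 0 := by
        intro z
        rw [Submodule.mem_colon_singleton, Submodule.mem_bot, smul_eq_mul]
      have h2 : y = 0 := by
        apply hs
        intro z hz
        rw [hy, hmemc] at hz
        exact hz
      apply (maximalIdeal.isMaximal R).ne_top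
      rw [hy, eq_top_iff]
      intro z _
      rw [hmemc, h2, mul_zero]
  · intro i hi h1 _
    rcases Finset.mem_insert.1 hi with h | h
    · exact absurd h h1
    · rw [Set.Finite.mem_toFinset] at h
      exact h.isPrime

omit [IsNoetherianRing R] in
lemma spanFinrank_le {x : R} (hx : x ∈ maximalIdeal R) [IsLocalRing (R ⧸ Ideal.span {x})]
    (hfg : Submodule.FG (maximalIdeal (R ⧸ Ideal.span {x}))) :
    (maximalIdeal R).spanFinrank ≤ (maximalIdeal (R ⧸ Ideal.span {x})).spanFinrank + 1 := by
  classical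
  set m' := maximalIdeal (R ⧸ Ideal.span {x}) with hm'
  let g : R ⧸ Ideal.span {x} → R := Function.surjInv Ideal.Quotient.mk_surjective
  have hg : ∀ b, Ideal.Quotient.mk (Ideal.span {x}) (g b) = b :=
    Function.surjInv_eq Ideal.Quotient.mk_surjective
  have hfin : m'.generators.Finite := hfg.finite_generators
  let S : Set R := insert x (g '' m'.generators)
  have hSfin : S.Finite := (hfin.image g).insert x
  have hloc : IsLocalHom (Ideal.Quotient.mk (Ideal.span {x})) :=
    IsLocalHom.of_surjective _ Ideal.Quotient.mk_surjective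
  have hmem : ∀ a, a ∈ maximalIdeal R ↔ Ideal.Quotient.mk (Ideal.span {x}) a ∈ m' := by
    intro a
    rw [mem_maximalIdeal, mem_maximalIdeal]
    constructor
    · intro ha h
      exact ha (hloc.map_nonunit a h)
    · intro ha h
      exact ha (h.map (Ideal.Quotient.mk (Ideal.span {x})))
  have hspan : maximalIdeal R = Submodule.span R S := by
    apply le_antisymm
    · intro a ha
      have h1 := (hmem a).1 ha
      rw [← Submodule.span_generators m'] at h1
      have h2 : Submodule.span (R ⧸ Ideal.span {x}) m'.generators =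
          Ideal.map (Ideal.Quotient.mk (Ideal.span {x})) (Ideal.span (g '' m'.generators)) := by
        rw [Ideal.map_span, ← Set.image_comp]
        have : (Ideal.Quotient.mk (Ideal.span {x}) ∘ g) '' m'.generators = m'.generators := by
          have h3 : (Ideal.Quotient.mk (Ideal.span {x}) ∘ g) = id := funext hg
          rw [h3, Set.image_id]
        rw [this]
      rw [h2] at h1
      obtain ⟨b, hb, hab⟩ := (Ideal.mem_map_iff_of_surjective _ Ideal.Quotient.mk_surjective).1 h1
      have h3 : a - b ∈ Ideal.span {x} := Ideal.Quotient.eq.1 hab.symm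
      have h4 : a = (a - b) + b := by ring
      rw [h4]
      refine add_mem ?_ ?_
      · exact Ideal.span_mono (Set.singleton_subset_iff.2 (Set.mem_insert _ _)) h3
      · exact Ideal.span_mono (Set.subset_insert _ _) hb
    · rw [Submodule.span_le]
      intro a ha
      rcases ha with rfl | ⟨b, hb, rfl⟩
      · exact hx
      · rw [SetLike.mem_coe, hmem, hg]
        exact Submodule.FG.generators_mem m' hb
  rw [hspan]
  refine (Submodule.spanFinrank_span_le_ncard_of_finite hSfin).trans ?_
  refine (Set.ncard_insert_le _ _).trans ?_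
  have h5 := Set.ncard_image_le (f := g) hfin
  rw [hfg.generators_ncard] at h5
  omega

end avoid

/-- one step of the induction -/
lemma serre_step (R : Type u) [CommRing R] [IsLocalRing R] [IsNoetherianRing R] (J : ℕ)
    (h : Subsingleton (Ext (ModuleCat.of R (R ⧸ maximalIdeal R))
      (ModuleCat.of R (R ⧸ maximalIdeal R)) J))
    (hstep : ∀ (R' : Type u) [CommRing R'] [IsLocalRing R'] [IsNoetherianRing R'],
      ringKrullDim R' + 1 ≤ ringKrullDim R →
      Subsingleton (Ext (ModuleCat.of R' (R' ⧸ maximalIdeal R'))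
        (ModuleCat.of R' (R' ⧸ maximalIdeal R')) J) → IsRegularLocalRing R') :
    IsRegularLocalRing R := by
  by_cases hm : maximalIdeal R = ⊥
  · apply IsRegularLocalRing.of_spanFinrank_maximalIdeal_le
    rw [hm, Submodule.spanFinrank_bot]
    exact ringKrullDim_nonneg_of_nontrivial
  have hMR : MR (R := R) J (R ⧸ maximalIdeal R) := MR_of_ext J _ h
  have hnt : Nontrivial (R ⧸ maximalIdeal R) :=
    Ideal.Quotient.nontrivial_iff.2 (maximalIdeal.isMaximal R).ne_top
  have hsoc : ∀ s : R, (∀ y ∈ maximalIdeal R, y * s = 0) → s = 0 := by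
    intro s hs
    by_contra hs0
    obtain ⟨r, ⟨e⟩⟩ := free_of_MR s hs0 hs J _ hMR
    rcases r with _ | r
    · exact not_subsingleton (R ⧸ maximalIdeal R) e.toEquiv.subsingleton
    · apply hm
      rw [Submodule.eq_bot_iff]
      intro y hy
      have h1 : y • e.symm (Pi.single 0 1) = 0 := by
        obtain ⟨w, hw⟩ := Ideal.Quotient.mk_surjective (e.symm (Pi.single 0 1))
        rw [← hw]
        change Ideal.Quotient.mk _ (y * w) = 0
        rw [Ideal.Quotient.eq_zero_iff_mem]
        exact Ideal.mul_mem_right _ _ hy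
      have h2 : y • (Pi.single 0 1 : Fin (r + 1) → R) = 0 := by
        rw [← map_smul] at h1
        exact e.symm.injective (by rw [h1, map_zero])
      have h3 := congrFun h2 0
      simpa using h3
  obtain ⟨x, hx, hx2, hreg⟩ := exists_param hm hsoc
  have hne : (Ideal.span {x} : Ideal R) ≠ ⊤ := by
    intro h0
    apply (maximalIdeal.isMaximal R).ne_top
    rw [eq_top_iff, ← h0, Ideal.span_singleton_le_iff_mem]
    exact hx
  have hnt' : Nontrivial (R ⧸ Ideal.span {x}) := Ideal.Quotient.nontrivial_iff.2 hne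
  have hloc' : IsLocalRing (R ⧸ Ideal.span {x}) :=
    IsLocalRing.of_surjective' (Ideal.Quotient.mk _) Ideal.Quotient.mk_surjective
  have hJ : J ≠ 0 := by
    rintro rfl
    have h0 : Subsingleton (R ⧸ maximalIdeal R) := hMR
    exact not_subsingleton _ h0
  -- the maximal ideal has finite projective dimension
  have hpdk := pd_of_MR J _ hMR
  have hS := scx_se (LinearMap.exact_subtype_mkQ (maximalIdeal R))
    (maximalIdeal R).subtype_injective (Submodule.mkQ_surjective (maximalIdeal R))
  have hpdR : HasProjectiveDimensionLT (ModuleCat.of R R) J := by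
    have : Projective (ModuleCat.of R R) := by
      rw [← IsProjective.iff_projective]
      infer_instance
    exact hasProjectiveDimensionLT_of_ge _ 1 J (by omega)
  have hpdm : HasProjectiveDimensionLT (ModuleCat.of R (maximalIdeal R)) J :=
    hS.hasProjectiveDimensionLT_X₁ J hpdR (hasProjectiveDimensionLT_of_ge _ J (J + 1) (by omega))
  have hMRm : MR (R := R) J (maximalIdeal R) :=
    MR_of_ext J _ (HasProjectiveDimensionLT.subsingleton _ J J le_rfl _)
  have hpdN : HasProjectiveDimensionLT (ModuleCat.of (R ⧸ Ideal.span {x}) (NN x)) J := by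
    apply pd_quot hreg J (maximalIdeal R) hMRm
    · intro y hy
      apply Subtype.ext
      exact hreg _ (congrArg Subtype.val hy)
    · exact Submodule.mkQ_surjective _
    · intro y hy
      exact (NN_zero x y).1 hy
  obtain ⟨i, r, hir⟩ := exists_retract hx hx2
  have hret : Retract (ModuleCat.of (R ⧸ Ideal.span {x})
      ((R ⧸ Ideal.span {x}) ⧸ maximalIdeal (R ⧸ Ideal.span {x})))
      (ModuleCat.of (R ⧸ Ideal.span {x}) (NN x)) :=
    ⟨ModuleCat.ofHom i, ModuleCat.ofHom r, by rw [← ModuleCat.ofHom_comp, hir]; rfl⟩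
  have hpdk' := hret.hasProjectiveDimensionLT J
  have hdim : ringKrullDim (R ⧸ Ideal.span {x}) + 1 ≤ ringKrullDim R := by
    apply ringKrullDim_quotient_succ_le_of_nonZeroDivisor
    rw [mem_nonZeroDivisors_iff_right]
    intro y hy
    exact hreg y (by rw [mul_comm]; exact hy)
  have hR' := hstep (R ⧸ Ideal.span {x}) hdim
    (HasProjectiveDimensionLT.subsingleton _ J J le_rfl _)
  apply IsRegularLocalRing.of_spanFinrank_maximalIdeal_le
  refine le_trans ?_ hdim
  rw [← hR'.spanFinrank_maximalIdeal]
  have h5 := spanFinrank_le hx ((inferInstance : IsNoetherian (R ⧸ Ideal.span {x})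
    (R ⧸ Ideal.span {x})).noetherian (maximalIdeal (R ⧸ Ideal.span {x})))
  exact_mod_cast h5

/-- **Serre's theorem**, in the form: `Ext^J(k, k) = 0` implies that the ring is regular -/
theorem serre (d : ℕ) : ∀ (R : Type u) [CommRing R] [IsLocalRing R] [IsNoetherianRing R],
    ringKrullDim R ≤ d → ∀ J : ℕ, Subsingleton (Ext (ModuleCat.of R (R ⧸ maximalIdeal R))
      (ModuleCat.of R (R ⧸ maximalIdeal R)) J) → IsRegularLocalRing R := by
  induction d with
  | zero =>
    intro R _ _ _ hd J h
    apply serre_step R J h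
    intro R' _ _ _ hdim _
    exfalso
    have h1 : ringKrullDim R' + 1 ≤ 0 := hdim.trans (by exact_mod_cast hd)
    have h2 : (0 : WithBot ℕ∞) ≤ ringKrullDim R' := ringKrullDim_nonneg_of_nontrivial
    have h3 : (0 : WithBot ℕ∞) + 1 ≤ ringKrullDim R' + 1 := by gcongr
    have h4 := h3.trans h1
    rw [zero_add] at h4
    exact absurd h4 (not_le_of_gt zero_lt_one)
  | succ d ih =>
    intro R _ _ _ hd J h
    apply serre_step R J h
    intro R' _ _ _ hdim hE
    apply ih R' _ J hE
    have h1 : ringKrullDim R' + 1 ≤ ((d + 1 : ℕ) : WithBot ℕ∞) := hdim.trans hd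
    have h2 : ringKrullDim R' + ((1 : ℕ) : WithBot ℕ∞) ≤ (d : WithBot ℕ∞) + ((1 : ℕ) : WithBot ℕ∞) := by
      exact_mod_cast h1
    rwa [ENat.WithBot.add_le_add_natCast_right_iff] at h2

end R688.PC
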