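import Pool.Agent.R688.PC.Dat

set_option autoImplicit false

/-!
# Vanishing of Bass numbers propagates upwards
-/

universe u

namespace R688.PC

variable {R : Type u} [CommRing R]

/-- socle elements lift -/
def SL (m : Ideal R) (D : Dat R) (n : ℕ) : Prop :=
  ∀ z : D.M (n + 1), (∀ a ∈ m, a • z = 0) → ∃ g : D.E n, D.p n g = z ∧ ∀ a ∈ m, a • g = 0

/-- everything is `x`-power torsion -/
def TP (D : Dat R) (x : R) : Prop := ∀ n, ∀ e : D.E n, ∃ k : ℕ, x ^ k • e = 0

variable [IsNoetherianRing R]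

lemma SL_tors (m : Ideal R) (D : Dat R) (n : ℕ) (x : R) (hx : x ∈ m) :
    SL m D n ↔ SL m (D.tors x) n := by
  constructor
  · rintro h ⟨z, hz⟩ hz'
    obtain ⟨g, hg, hg'⟩ := h z (fun a ha => congrArg Subtype.val (hz' a ha))
    exact ⟨⟨g, 1, by rw [pow_one]; exact hg' x hx⟩, Subtype.ext hg, fun a ha =>
      Subtype.ext (hg' a ha)⟩
  · intro h z hz
    obtain ⟨g, hg, hg'⟩ := h ⟨z, 1, by rw [pow_one]; exact hz x hx⟩
      (fun a ha => Subtype.ext (hz a ha))
    exact ⟨g.1, congrArg Subtype.val hg, fun a ha => congrArg Subtype.val (hg' a ha)⟩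

lemma TP_tors (D : Dat R) (x y : R) (h : TP D y) : TP (D.tors x) y := by
  rintro n ⟨e, he⟩
  obtain ⟨k, hk⟩ := h n e
  exact ⟨k, Subtype.ext hk⟩

lemma TP_tors_self (D : Dat R) (x : R) : TP (D.tors x) x := by
  rintro n ⟨e, k, he⟩
  exact ⟨k, Subtype.ext he⟩

/-- iterated torsion -/
noncomputable def torsL : List R → Dat R → Dat R
  | [], D => D
  | x :: l, D => torsL l (D.tors x)

lemma torsL_surj (l : List R) : ∀ (D : Dat R) (c : ℕ), D.Surj c →
    (torsL l D).Surj (c + l.length) := by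
  induction l with
  | nil => intro D c h; exact h
  | cons x l ih =>
    intro D c h
    have h1 := ih (D.tors x) (c + 1) (D.tors_surj x c h)
    rw [List.length_cons, show c + (l.length + 1) = c + 1 + l.length by ring]
    exact h1

lemma torsL_SL (m : Ideal R) (l : List R) : ∀ (D : Dat R) (n : ℕ), (∀ x ∈ l, x ∈ m) →
    (SL m D n ↔ SL m (torsL l D) n) := by
  induction l with
  | nil => intro D n _; exact Iff.rfl
  | cons x l ih =>
    intro D n h
    rw [SL_tors m D n x (h x List.mem_cons_self)]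
    exact ih (D.tors x) n (fun y hy => h y (List.mem_cons_of_mem _ hy))

lemma torsL_TP_of (l : List R) : ∀ (D : Dat R) (y : R), TP D y → TP (torsL l D) y := by
  induction l with
  | nil => intro D y h; exact h
  | cons x l ih => intro D y h; exact ih (D.tors x) y (TP_tors D x y h)

lemma torsL_TP (l : List R) : ∀ (D : Dat R), ∀ x ∈ l, TP (torsL l D) x := by
  induction l with
  | nil => intro D x hx; simp at hx
  | cons x l ih =>
    intro D y hy
    rcases List.mem_cons.1 hy with rfl | hy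
    · exact torsL_TP_of l (D.tors y) y (TP_tors_self D y)
    · exact ih (D.tors x) y hy

/-- the annihilator of an element -/
noncomputable def annE {X : Type u} [AddCommGroup X] [Module R X] (z : X) : Ideal R :=
  LinearMap.ker (LinearMap.toSpanSingleton R X z)

omit [IsNoetherianRing R] in
lemma mem_annE {X : Type u} [AddCommGroup X] [Module R X] (z : X) (a : R) :
    a ∈ annE z ↔ a • z = 0 := Iff.rfl

lemma pow_kill (D : Dat R) (m : Ideal R) (l : List R)
    (hm : m ≤ (Ideal.span {x | x ∈ l}).radical) (h : ∀ x ∈ l, TP D x) (n : ℕ) (z : D.M n) :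
    ∃ K : ℕ, m ^ K ≤ annE z := by
  apply Ideal.exists_pow_le_of_le_radical_of_fg
  · refine hm.trans (Ideal.radical_le_radical_iff.2 ?_)
    rw [Ideal.span_le]
    intro x hx
    obtain ⟨k, hk⟩ := h x hx n (D.i n z)
    refine ⟨k, ?_⟩
    rw [mem_annE]
    apply D.inj n
    rw [map_smul, hk, map_zero]
  · exact (inferInstance : IsNoetherian R R).noetherian m

/-- the key induction: if socle elements lift then elements killed by an ideal lift -/
lemma lift_ideal (D : Dat R) (m : Ideal R) [hmax : m.IsMaximal] (n : ℕ) (h : SL m D n) :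
    ∀ (𝔟 : Ideal R), (∃ K : ℕ, m ^ K ≤ 𝔟) → ∀ z : D.M (n + 1), 𝔟 ≤ annE z →
      ∃ e : D.E n, D.p n e = z ∧ 𝔟 ≤ annE e := by
  intro 𝔟
  induction 𝔟 using IsNoetherian.induction (R := R) (M := R) with
  | hgt 𝔟 ih =>
  rintro ⟨K, hK⟩ z hz
  by_cases htop : 𝔟 = ⊤
  · refine ⟨0, ?_, ?_⟩
    · have h1 : (1 : R) ∈ annE z := hz (htop ▸ Submodule.mem_top)
      rw [mem_annE, one_smul] at h1
      rw [map_zero, h1]
    · intro a _
      rw [mem_annE, smul_zero]
  -- socle element
  obtain ⟨a, ha, hma⟩ : ∃ a, a ∉ 𝔟 ∧ ∀ y ∈ m, y * a ∈ 𝔟 := by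
    have hex : ∃ j : ℕ, m ^ j ≤ 𝔟 := ⟨K, hK⟩
    classical
    have hmin := Nat.find_spec hex
    have hne : Nat.find hex ≠ 0 := by
      intro h0
      rw [h0, pow_zero, Ideal.one_eq_top] at hmin
      exact htop (top_le_iff.1 hmin)
    obtain ⟨j, hj⟩ := Nat.exists_eq_succ_of_ne_zero hne
    have hnot : ¬ m ^ j ≤ 𝔟 := Nat.find_min hex (by omega)
    obtain ⟨a, ha, ha'⟩ := SetLike.not_le_iff_exists.1 hnot
    refine ⟨a, ha', fun y hy => hmin ?_⟩
    rw [hj, pow_succ']
    exact Ideal.mul_mem_mul hy ha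
  have haz : ∀ y ∈ m, y • (a • z) = 0 := by
    intro y hy
    rw [smul_smul]
    exact hz (hma y hy)
  obtain ⟨g, hg, hg'⟩ := h (a • z) haz
  -- extend
  have hker : m ≤ LinearMap.ker ((Submodule.mkQ 𝔟).comp (LinearMap.toSpanSingleton R R a)) := by
    intro y hy
    rw [LinearMap.mem_ker, LinearMap.comp_apply, LinearMap.toSpanSingleton_apply,
      Submodule.mkQ_apply, Submodule.Quotient.mk_eq_zero]
    exact hma y hy
  have hker' : m ≤ LinearMap.ker (LinearMap.toSpanSingleton R (D.E n) g) := fun y hy => hg' y hy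
  obtain ⟨H, hH⟩ := (D.einj n).out
    (Submodule.liftQ m ((Submodule.mkQ 𝔟).comp (LinearMap.toSpanSingleton R R a)) hker)
    (by
      rw [← LinearMap.ker_eq_bot, LinearMap.ker_eq_bot']
      intro y hy
      induction y using Submodule.Quotient.induction_on with
      | H y =>
        rw [Submodule.liftQ_apply] at hy
        rw [Submodule.Quotient.mk_eq_zero]
        by_contra hy'
        obtain ⟨t, ht⟩ := Ideal.IsMaximal.exists_inv hmax hy'
        obtain ⟨w, hw, hw'⟩ := ht
        apply ha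
        have h1 : y * a ∈ 𝔟 := by
          rw [LinearMap.comp_apply, LinearMap.toSpanSingleton_apply, Submodule.mkQ_apply,
            Submodule.Quotient.mk_eq_zero] at hy
          exact hy
        have h2 : a = t * (y * a) + w * a := by
          rw [← mul_assoc, ← add_mul, hw', one_mul]
        rw [h2]
        exact add_mem (Ideal.mul_mem_left _ _ h1) (hma w hw))
    (Submodule.liftQ m (LinearMap.toSpanSingleton R (D.E n) g) hker')
  set e₁ : D.E n := H (Submodule.Quotient.mk 1) with he₁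
  have hb : 𝔟 ≤ annE e₁ := by
    intro y hy
    rw [mem_annE, he₁, ← map_smul, ← Submodule.Quotient.mk_smul]
    have : (Submodule.Quotient.mk (y • (1 : R)) : R ⧸ 𝔟) = 0 := by
      rw [Submodule.Quotient.mk_eq_zero, smul_eq_mul, mul_one]
      exact hy
    rw [this, map_zero]
  have hae : a • e₁ = g := by
    have h1 := hH (Submodule.Quotient.mk 1)
    rw [Submodule.liftQ_apply, Submodule.liftQ_apply, LinearMap.comp_apply,
      LinearMap.toSpanSingleton_apply, LinearMap.toSpanSingleton_apply, one_smul, one_smul,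
      Submodule.mkQ_apply] at h1
    rw [he₁, ← map_smul, ← Submodule.Quotient.mk_smul, smul_eq_mul, mul_one]
    exact h1
  obtain ⟨e₂, he₂, he₂'⟩ := ih (𝔟 ⊔ Ideal.span {a})
    (lt_of_le_of_ne le_sup_left (by
      intro heq
      apply ha
      rw [heq]
      exact Ideal.mem_sup_right (Ideal.mem_span_singleton_self a)))
    ⟨K, hK.trans le_sup_left⟩ (z - D.p n e₁)
    (by
      rw [sup_le_iff]
      constructor
      · intro y hy
        have h1 : y • e₁ = 0 := hb hy
        have h2 : y • z = 0 := hz hy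
        rw [mem_annE, smul_sub, ← map_smul, h1, h2, map_zero, sub_zero]
      · rw [Ideal.span_singleton_le_iff_mem, mem_annE, smul_sub, ← map_smul, hae, hg, sub_self])
  refine ⟨e₁ + e₂, ?_, ?_⟩
  · rw [map_add, he₂, add_sub_cancel]
  · intro y hy
    have h1 : y • e₁ = 0 := hb hy
    have h2 : y • e₂ = 0 := he₂' (Ideal.mem_sup_left hy)
    rw [mem_annE, smul_add, h1, h2, add_zero]

lemma inj_of_SL (D : Dat R) (m : Ideal R) [hmax : m.IsMaximal] (n : ℕ) (h : SL m D n)
    (hk : ∀ z : D.M (n + 1), ∃ K : ℕ, m ^ K ≤ annE z) : Module.Injective R (D.M n) := by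
  apply Module.Baer.injective
  intro 𝔞 φ
  obtain ⟨e, he⟩ : ∃ e : D.E n, ∀ a : 𝔞, D.i n (φ a) = (a : R) • e := by
    obtain ⟨H, hH⟩ := (D.einj n).out 𝔞.subtype 𝔞.subtype_injective (D.i n ∘ₗ φ)
    refine ⟨H 1, fun a => ?_⟩
    rw [← map_smul, smul_eq_mul, mul_one]
    exact (hH a).symm
  obtain ⟨K, hK⟩ := hk (D.p n e)
  obtain ⟨e', he', hb⟩ := lift_ideal D m n h (𝔞 ⊔ m ^ K) ⟨K, le_sup_right⟩ (D.p n e) (by
    rw [sup_le_iff]
    refine ⟨fun a ha => ?_, hK⟩
    rw [mem_annE, ← map_smul, ← he ⟨a, ha⟩, (D.exact n).apply_apply_eq_zero])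
  obtain ⟨w, hw⟩ := (D.exact n (e - e')).1 (by rw [map_sub, he', sub_self])
  refine ⟨LinearMap.toSpanSingleton R _ w, fun a ha => ?_⟩
  apply D.inj n
  rw [LinearMap.toSpanSingleton_apply, map_smul, hw, smul_sub, he ⟨a, ha⟩]
  have : a • e' = 0 := hb (Ideal.mem_sup_left ha)
  rw [this, sub_zero]

omit [IsNoetherianRing R] in
lemma exists_section (D : Dat R) (n : ℕ) (h : Module.Injective R (D.M n))
    (hs : Function.Surjective (D.p n)) : ∃ s : D.M (n + 1) →ₗ[R] D.E n, D.p n ∘ₗ s = LinearMap.id := by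
  have h2 := Function.Exact.split_tfae (D.exact n) (D.inj n) hs
  obtain ⟨ρ, hρ⟩ := h.out (D.i n) (D.inj n) LinearMap.id
  exact (h2.out 0 1 rfl rfl).2 ⟨ρ, LinearMap.ext hρ⟩

omit [IsNoetherianRing R] in
lemma inj_succ (D : Dat R) (n : ℕ) (h : Module.Injective R (D.M n))
    (hs : Function.Surjective (D.p n)) : Module.Injective R (D.M (n + 1)) := by
  obtain ⟨s, hs'⟩ := exists_section D n h hs
  constructor
  intro X Y _ _ _ _ f hf g
  obtain ⟨H, hH⟩ := (D.einj n).out f hf (s ∘ₗ g)
  refine ⟨D.p n ∘ₗ H, fun x => ?_⟩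
  rw [LinearMap.comp_apply, hH, LinearMap.comp_apply]
  exact LinearMap.congr_fun hs' (g x)

omit [IsNoetherianRing R] in
lemma SL_of_inj (D : Dat R) (m : Ideal R) (n : ℕ) (h : Module.Injective R (D.M n))
    (hs : Function.Surjective (D.p n)) : SL m D n := by
  obtain ⟨s, hs'⟩ := exists_section D n h hs
  intro z hz
  exact ⟨s z, LinearMap.congr_fun hs' z, fun a ha => by rw [← map_smul, hz a ha, map_zero]⟩

/-- vanishing propagates -/
theorem SL_up (D : Dat R) (hD : D.Surj 0) (m : Ideal R) [m.IsMaximal] (l : List R)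
    (hl : ∀ x ∈ l, x ∈ m) (hm : m ≤ (Ideal.span {x | x ∈ l}).radical) (n : ℕ)
    (hn : l.length ≤ n) (h : SL m D n) (j : ℕ) (hj : n ≤ j) : SL m D j := by
  rw [torsL_SL m l D n hl] at h
  rw [torsL_SL m l D j hl]
  have hsurj := torsL_surj l D 0 hD
  rw [zero_add] at hsurj
  have hTP := torsL_TP l D
  set D' := torsL l D
  have hinj : ∀ j, n ≤ j → Module.Injective R (D'.M j) := by
    intro j hj
    induction j, hj using Nat.le_induction with
    | base => exact inj_of_SL D' m n h (fun z => pow_kill D' m l hm hTP _ z)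
    | succ j hj ih => exact inj_succ D' j ih (hsurj j (hn.trans hj))
  exact SL_of_inj D' m j (hinj j hj) (hsurj j (hn.trans hj))

end R688.PC
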